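import Pool.Agent.H482R3.EB.Stm

/-! # EB, task ADM3: admissibility of line syllables is computable (helper338) -/

set_option autoImplicit false

namespace Pool.Agent.H338R.EB.ADM3

open Pool.Agent.H482R3.EB
open Pool.Agent.H482R3.EA (W inv ev PP xx evF cond1 cond2 cV cW LIdx Syl gOf iW iV letF valS
  Sys St Near InD Adm Act)

section tools

variable {α β γ : Type} [Primcodable α] [Primcodable β] [Primcodable γ]

theorem cp_comp {p : β → Prop} {f : α → β} (hp : ComputablePred p) (hf : Computable f) :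
    ComputablePred (fun x => p (f x)) := by
  obtain ⟨d, h⟩ := hp
  exact ⟨fun x => d (f x), h.comp hf⟩

theorem cp_const (P : Prop) : ComputablePred (fun _ : α => P) := by
  classical
  exact ⟨fun _ => inferInstance, Computable.const _⟩

theorem cp_eq {f : α → β} (hf : Computable f) (b : β) [DecidableEq β] :
    ComputablePred (fun x => f x = b) :=
  cp_comp (p := fun y : β => y = b)
    (PrimrecRel.comp Primrec.eq Primrec.id (Primrec.const b)).computablePred hf

end tools

theorem comp_gOf (a b : ℕ) : Computable (gOf : Option (Syl (Fin a) (Fin b)) → W (Fin b)) := by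
  have h1 : Computable (fun t : (W (Fin b) × W (Fin a)) ⊕ (W (Fin b) × Fin a × Fin b × W ℕ) =>
      (Sum.casesOn (motive := fun _ => W (Fin b)) t (fun u => u.1) (fun u => u.1) :
        W (Fin b))) :=
    Computable.sumCasesOn Computable.id (Computable.fst.comp Computable.snd).to₂
      (Computable.fst.comp Computable.snd).to₂
  have h2 : Computable (fun t : Syl (Fin a) (Fin b) =>
      (Sum.casesOn (motive := fun _ => W (Fin b)) t (fun u => u.1)
        (fun t => Sum.casesOn (motive := fun _ => W (Fin b)) t (fun u => u.1) (fun u => u.1)) :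
        W (Fin b))) :=
    Computable.sumCasesOn Computable.id (Computable.fst.comp Computable.snd).to₂
      (h1.comp Computable.snd).to₂
  have h3 : Computable (fun s : Option (Syl (Fin a) (Fin b)) =>
      (Option.casesOn (motive := fun _ => W (Fin b)) s [] (fun t =>
        Sum.casesOn (motive := fun _ => W (Fin b)) t (fun u => u.1)
        (fun t => Sum.casesOn (motive := fun _ => W (Fin b)) t (fun u => u.1)
          (fun u => u.1))) : W (Fin b))) :=
    Computable.option_casesOn Computable.id (Computable.const _) (h2.comp Computable.snd).to₂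
  refine h3.of_eq fun s => ?_
  rcases s with _ | (u | (u | u)) <;> rfl

abbrev XX (a b : ℕ) : Type :=
  Option (Syl (Fin a) (Fin b)) × (W (Fin b) × Fin a × Fin b × W ℕ)

theorem near_comp {a b : ℕ} (NW : W (Fin b) → Fin a → Option (Syl (Fin a) (Fin b)) → Prop)
    (hN : ComputablePred (fun p : (W (Fin b) × Fin a) × Option (Syl (Fin a) (Fin b)) =>
      NW p.1.1 p.1.2 p.2)) (wf : ℕ → W (Fin b)) (hw : Computable wf) (v0 : Fin a) :
    ComputablePred (fun z : XX a b × ℕ => NW (z.1.2.1 ++ wf z.2) v0 z.1.1) := by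
  have f1 : Computable (fun z : XX a b × ℕ => z.1.2.1 ++ wf z.2) :=
    Computable.list_append.comp (Computable.fst.comp (Computable.snd.comp Computable.fst))
      (hw.comp Computable.snd)
  have f2 : Computable (fun z : XX a b × ℕ => ((z.1.2.1 ++ wf z.2, v0), z.1.1)) :=
    (f1.pair (Computable.const v0)).pair (Computable.fst.comp Computable.fst)
  exact cp_comp (p := fun p : (W (Fin b) × Fin a) × Option (Syl (Fin a) (Fin b)) =>
      NW p.1.1 p.1.2 p.2) (f := fun z : XX a b × ℕ => ((z.1.2.1 ++ wf z.2, v0), z.1.1)) hN f2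

theorem cond_comp {a b : ℕ} (C : ℤ → W ℕ → Prop)
    (hC : ComputablePred (fun p : (ℕ × ℕ) × W ℕ => C ((p.1.1 : ℤ) - (p.1.2 : ℤ)) p.2)) :
    ComputablePred (fun z : XX a b × ℕ => C (((z.2 : ℕ) : ℤ) - ((0 : ℕ) : ℤ)) z.1.2.2.2.2) ∧
    ComputablePred (fun z : XX a b × ℕ => C (((0 : ℕ) : ℤ) - ((z.2 : ℕ) : ℤ)) z.1.2.2.2.2) := by
  have cy : Computable (fun z : XX a b × ℕ => z.1.2.2.2.2) :=
    Computable.snd.comp (Computable.snd.comp (Computable.snd.comp
      (Computable.snd.comp Computable.fst)))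
  have f1 : Computable (fun z : XX a b × ℕ => ((z.2, (0 : ℕ)), z.1.2.2.2.2)) :=
    (Computable.snd.pair (Computable.const (0 : ℕ))).pair cy
  have f2 : Computable (fun z : XX a b × ℕ => (((0 : ℕ), z.2), z.1.2.2.2.2)) :=
    ((Computable.const (0 : ℕ)).pair Computable.snd).pair cy
  exact ⟨cp_comp (p := fun p : (ℕ × ℕ) × W ℕ => C ((p.1.1 : ℤ) - (p.1.2 : ℤ)) p.2)
      (f := fun z : XX a b × ℕ => ((z.2, (0 : ℕ)), z.1.2.2.2.2)) hC f1,
    cp_comp (p := fun p : (ℕ × ℕ) × W ℕ => C ((p.1.1 : ℤ) - (p.1.2 : ℤ)) p.2)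
      (f := fun z : XX a b × ℕ => (((0 : ℕ), z.2), z.1.2.2.2.2)) hC f2⟩

theorem wp_comp {b : ℕ} (F : Fin b → ℤ → W (Fin b))
    (h : Computable (fun p : Fin b × (ℕ × ℕ) => F p.1 ((p.2.1 : ℤ) - (p.2.2 : ℤ))))
    (w0 : Fin b) :
    Computable (fun n : ℕ => F w0 (((n : ℕ) : ℤ) - ((0 : ℕ) : ℤ))) ∧
    Computable (fun n : ℕ => F w0 (((0 : ℕ) : ℤ) - ((n : ℕ) : ℤ))) := by
  have f1 : Computable (fun n : ℕ => (w0, (n, (0 : ℕ)))) :=
    (Computable.const w0).pair (Computable.id.pair (Computable.const (0 : ℕ)))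
  have f2 : Computable (fun n : ℕ => (w0, ((0 : ℕ), n))) :=
    (Computable.const w0).pair ((Computable.const (0 : ℕ)).pair Computable.id)
  exact ⟨h.comp f1, h.comp f2⟩

/-- a bounded integer as a difference -/
theorem int_cases (B : ℕ) (j : ℤ) (hj : |j| ≤ (B : ℤ)) :
    ∃ n : ℕ, n ≤ B ∧ (j = ((n : ℕ) : ℤ) - ((0 : ℕ) : ℤ) ∨ j = ((0 : ℕ) : ℤ) - ((n : ℕ) : ℤ)) := by
  refine ⟨j.natAbs, ?_, ?_⟩
  · rw [abs_le] at hj
    omega
  · omega

theorem t_ADM3 (hB : S_BASB) (hP : Pool.Agent.H482R3.EA.S_CP) (hN : S_NEARB) (hI : S_INDB)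
    (hS : Pool.Agent.H482R3.EA.S_BS) (hD : S_NBD) (h1 : Pool.Agent.H482R3.EA.S_C1)
    (h2 : Pool.Agent.H482R3.EA.S_C2) : S_ADM3 := by
  intro a b c hcr htW hW
  have cand : ∀ {α : Type} [Primcodable α] {p q : α → Prop}, ComputablePred p →
      ComputablePred q → ComputablePred (fun x => p x ∧ q x) :=
    fun {α} _ {p q} hp hq => (hP α inferInstance 0).1 p q hp hq
  have cor : ∀ {α : Type} [Primcodable α] {p q : α → Prop}, ComputablePred p →
      ComputablePred q → ComputablePred (fun x => p x ∨ q x) :=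
    fun {α} _ {p q} hp hq => (hP α inferInstance 0).2.1 p q hp hq
  have cex : ∀ {α : Type} [Primcodable α] {n : ℕ} {p : Fin n → α → Prop},
      (∀ i, ComputablePred (p i)) → ComputablePred (fun x => ∃ i, p i x) :=
    fun {α} _ {n p} hp => (hP α inferInstance n).2.2.2 p hp
  have cbs : ∀ {α : Type} [Primcodable α] {p : α × ℕ → Prop} {B : α → ℕ},
      ComputablePred p → Computable B → ComputablePred (fun x => ∃ n, n ≤ B x ∧ p (x, n)) :=
    fun {α} _ {p B} hp hB => hS α inferInstance p B hp hB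
  have cy : Computable (fun x : Option (Syl (Fin a) (Fin b)) ×
      (W (Fin b) × Fin a × Fin b × W ℕ) => x.2.2.2.2) :=
    Computable.snd.comp (Computable.snd.comp (Computable.snd.comp Computable.snd))
  have cg : Computable (fun x : Option (Syl (Fin a) (Fin b)) ×
      (W (Fin b) × Fin a × Fin b × W ℕ) => x.2.1) := Computable.fst.comp Computable.snd
  have cB : Computable (fun x : Option (Syl (Fin a) (Fin b)) ×
      (W (Fin b) × Fin a × Fin b × W ℕ) => x.2.1.length + (gOf x.1).length) :=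
    (Primrec.nat_add.to_comp).comp (Computable.list_length.comp cg)
      (Computable.list_length.comp ((comp_gOf a b).comp Computable.fst))
  have key : ComputablePred (fun x : Option (Syl (Fin a) (Fin b)) ×
      (W (Fin b) × Fin a × Fin b × W ℕ) => ∃ v0 : Fin a, ∃ w0 : Fin b,
      (x.2.2.1 = v0 ∧ x.2.2.2.1 = w0) ∧
      (c (.inl v0) (.inr w0) ≠ 0 ∧ ¬ InDL c x.2.1 v0 w0 x.1 ∧
      ((¬ (∃ n : ℕ, n ≤ x.2.1.length + (gOf x.1).length ∧
          (NearW c (x.2.1 ++ wp w0 (((n : ℕ) : ℤ) - ((0 : ℕ) : ℤ))) v0 x.1 ∨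
           NearW c (x.2.1 ++ wp w0 (((0 : ℕ) : ℤ) - ((n : ℕ) : ℤ))) v0 x.1)) ∧
          cond1 (c (.inl v0) (.inr w0)) x.2.2.2.2) ∨
      (∃ n : ℕ, n ≤ x.2.1.length + (gOf x.1).length ∧
          ((NearW c (x.2.1 ++ wp w0 (((n : ℕ) : ℤ) - ((0 : ℕ) : ℤ))) v0 x.1 ∧
            cond2 (c (.inl v0) (.inr w0)) (((n : ℕ) : ℤ) - ((0 : ℕ) : ℤ)) x.2.2.2.2) ∨
           (NearW c (x.2.1 ++ wp w0 (((0 : ℕ) : ℤ) - ((n : ℕ) : ℤ))) v0 x.1 ∧
            cond2 (c (.inl v0) (.inr w0)) (((0 : ℕ) : ℤ) - ((n : ℕ) : ℤ))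
              x.2.2.2.2)))))) := by
    refine cex fun v0 => cex fun w0 => cand (cand ?_ ?_) ?_
    · exact cp_eq (Computable.fst.comp (Computable.snd.comp Computable.snd)) v0
    · exact cp_eq (Computable.fst.comp (Computable.snd.comp
        (Computable.snd.comp Computable.snd))) w0
    · by_cases hk : c (.inl v0) (.inr w0) = 0
      · exact (cp_const False).of_eq fun x => by simp [hk]
      · have hk2 : 2 ≤ c (.inl v0) (.inr w0) := by
          have := hcr v0 w0
          omega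
        -- near, with a parameter
        obtain ⟨q1, q2⟩ := wp_comp wp (hB b).2.1 w0
        have n1 := near_comp (NearW c) (hN a b c hW) _ q1 v0
        have n2 := near_comp (NearW c) (hN a b c hW) _ q2 v0
        obtain ⟨e1, e2⟩ := cond_comp (a := a) (b := b) (cond2 (c (.inl v0) (.inr w0))) (h2 _ hk2)
        refine cand (cp_const _) (cand ?_ (cor (cand ?_ ?_) ?_))
        · refine ComputablePred.not ?_
          exact cp_comp (hI a b c hW).2
            ((cg.pair (Computable.const (v0, w0))).pair Computable.fst)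
        · exact (cbs (cor n1 n2) cB).not
        · exact cp_comp (h1 _ hk2) cy
        · exact cbs (cor (cand n1 e1) (cand n2 e2)) cB
  refine key.of_eq fun x => ?_
  obtain ⟨s, g, v, w, y⟩ := x
  constructor
  · rintro ⟨v0, w0, ⟨hv0, hw0⟩, hc0, hI0, hrest⟩
    change v = v0 at hv0
    change w = w0 at hw0
    subst hv0
    subst hw0
    change c (.inl v) (.inr w) ≠ 0 at hc0
    change ¬ InDL c g v w s at hI0
    refine ⟨hc0, hI0, ?_⟩
    rcases hrest with ⟨hE, hy⟩ | ⟨n, hn, hF⟩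
    · refine Or.inl ⟨?_, hy⟩
      intro j hj
      apply hE
      obtain ⟨n, hn, hjn⟩ := int_cases _ j (hD (Fin a) (Fin b) c htW g v w j s hI0 hc0 hj)
      refine ⟨n, hn, ?_⟩
      rcases hjn with rfl | rfl
      · exact Or.inl hj
      · exact Or.inr hj
    · rcases hF with ⟨hF1, hF2⟩ | ⟨hF1, hF2⟩
      · exact Or.inr ⟨_, hF1, hF2⟩
      · exact Or.inr ⟨_, hF1, hF2⟩
  · rintro ⟨hc0, hI0, hrest⟩
    refine ⟨v, w, ⟨rfl, rfl⟩, hc0, hI0, ?_⟩
    rcases hrest with ⟨hE, hy⟩ | ⟨j, hj, hy⟩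
    · refine Or.inl ⟨?_, hy⟩
      rintro ⟨n, -, hn | hn⟩
      · exact hE _ hn
      · exact hE _ hn
    · obtain ⟨n, hn, hjn⟩ := int_cases _ j (hD (Fin a) (Fin b) c htW g v w j s hI0 hc0 hj)
      refine Or.inr ⟨n, hn, ?_⟩
      rcases hjn with rfl | rfl
      · exact Or.inl ⟨hj, hy⟩
      · exact Or.inr ⟨hj, hy⟩

end Pool.Agent.H338R.EB.ADM3
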