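import Pool.Agent.H482R3.EB.Stm

/-! # EB, task ADMB: admissibility of a syllable is computable (helper338, after helper484) -/

set_option autoImplicit false

namespace Pool.Agent.H338R.EB.ADMB

open Pool.Agent.H482R3.EB
open Pool.Agent.H482R3.EA (W inv ev PP xx evF cond1 cond2 cV cW LIdx Syl gOf iW iV letF valS
  Sys St Near InD Adm Act)

section tools

variable {α β γ : Type} [Primcodable α] [Primcodable β] [Primcodable γ]

theorem cp_comp {p : β → Prop} {f : α → β} (hp : ComputablePred p) (hf : Computable f) :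
    ComputablePred (fun x => p (f x)) := by
  obtain ⟨d, h⟩ := hp
  exact ⟨fun x => d (f x), h.comp hf⟩

theorem cp_sum {p : α → β → Prop} {q : α → γ → Prop}
    (hp : ComputablePred (fun x : α × β => p x.1 x.2))
    (hq : ComputablePred (fun x : α × γ => q x.1 x.2)) :
    ComputablePred (fun x : α × (β ⊕ γ) => Sum.elim (p x.1) (q x.1) x.2) := by
  classical
  rw [ComputablePred.computable_iff] at hp hq ⊢
  obtain ⟨f, hf, hf'⟩ := hp
  obtain ⟨g, hg, hg'⟩ := hq
  refine ⟨fun x => Sum.casesOn (motive := fun _ => Bool) x.2 (fun b => f (x.1, b))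
    (fun c => g (x.1, c)), ?_, ?_⟩
  · exact Computable.sumCasesOn Computable.snd
      (hf.comp ((Computable.fst.comp Computable.fst).pair Computable.snd)).to₂
      (hg.comp ((Computable.fst.comp Computable.fst).pair Computable.snd)).to₂
  · funext ⟨x, y⟩
    cases y with
    | inl b => exact congrFun hf' (x, b)
    | inr c => exact congrFun hg' (x, c)

theorem cp_eq {f : α → β} (hf : Computable f) (b : β) [DecidableEq β] :
    ComputablePred (fun x => f x = b) :=
  cp_comp (p := fun y : β => y = b)
    (PrimrecRel.comp Primrec.eq Primrec.id (Primrec.const b)).computablePred hf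

end tools

theorem t_ADMB (hP : Pool.Agent.H482R3.EA.S_CP) (hN : S_NEARB) (h2 : S_ADM2) (h3 : S_ADM3) :
    S_ADMB := by
  intro a b c hcr htV htW hV hW
  have cand : ∀ {α : Type} [Primcodable α] {p q : α → Prop}, ComputablePred p →
      ComputablePred q → ComputablePred (fun x => p x ∧ q x) :=
    fun {α} _ {p q} hp hq => (hP α inferInstance 0).1 p q hp hq
  -- points
  have P1 : ComputablePred (fun x : Option (Syl (Fin a) (Fin b)) ×
      (W (Fin b) × Fin a × Bool × ℕ) => x.2.2.2.2 ≠ 0 ∧ ¬ NearW c x.2.1 x.2.2.1 x.1) := by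
    refine cand ?_ ?_
    · exact (cp_eq (Computable.snd.comp (Computable.snd.comp
        (Computable.snd.comp Computable.snd))) 0).not
    · refine ComputablePred.not ?_
      exact cp_comp (hN a b c hW) (((Computable.fst.comp Computable.snd).pair
        (Computable.fst.comp (Computable.snd.comp Computable.snd))).pair Computable.fst)
  have P1' : ComputablePred (fun x : Option (Syl (Fin a) (Fin b)) ×
      (W (Fin b) × Fin a × Bool × ℕ) => AdmW c x.1 (.inl x.2)) := P1.of_eq fun x => Iff.rfl
  have P2' : ComputablePred (fun x : Option (Syl (Fin a) (Fin b)) × (W (Fin b) × W (Fin a)) =>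
      AdmW c x.1 (.inr (.inl x.2))) := h2 a b c htV hV hW
  have P3' : ComputablePred (fun x : Option (Syl (Fin a) (Fin b)) ×
      (W (Fin b) × Fin a × Fin b × W ℕ) => AdmW c x.1 (.inr (.inr x.2))) :=
    h3 a b c hcr htW hW
  have P23 : ComputablePred (fun x : Option (Syl (Fin a) (Fin b)) ×
      ((W (Fin b) × W (Fin a)) ⊕ (W (Fin b) × Fin a × Fin b × W ℕ)) =>
      AdmW c x.1 (.inr x.2)) := by
    refine (cp_sum (p := fun s u => AdmW c s (.inr (.inl u)))
      (q := fun s u => AdmW c s (.inr (.inr u))) P2' P3').of_eq fun x => ?_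
    rcases x with ⟨s, (u | u)⟩ <;> rfl
  refine (cp_sum (p := fun s u => AdmW c s (.inl u))
      (q := fun s u => AdmW c s (.inr u)) P1' P23).of_eq fun x => ?_
  rcases x with ⟨s, (u | u)⟩ <;> rfl

end Pool.Agent.H338R.EB.ADMB
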