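import Pool.Agent.H482R3.EB.Stm

set_option autoImplicit false

/-! Task BASB (helper338): the basic functions on words are computable. -/

namespace Pool.Agent.H338R.EB.BASB

open Pool.Agent.H482R3 Pool.Agent.H482R3.EA Pool.Agent.H482R3.EB

theorem prim_inv (n : ℕ) : Primrec (fun u : W (Fin n) => inv u) := by
  have h : Primrec (fun u : W (Fin n) =>
      (u.map (fun a : Fin n × Bool => (a.1, !a.2))).reverse) :=
    Primrec.list_reverse.comp (Primrec.list_map Primrec.id
      (Primrec₂.mk (Primrec.pair (Primrec.fst.comp Primrec.snd)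
        (Primrec.not.comp (Primrec.snd.comp Primrec.snd)))))
  exact h

theorem wp_eq {S : Type} (s : S) (k l : ℕ) : wp s ((k : ℤ) - (l : ℤ)) =
    if l ≤ k then (List.range (k - l)).map (fun _ => (s, true))
      else (List.range (l - k)).map (fun _ => (s, false)) := by
  unfold wp
  by_cases h : l ≤ k
  · have h1 : (0 : ℤ) ≤ (k : ℤ) - (l : ℤ) := by omega
    have h2 : ((k : ℤ) - (l : ℤ)).toNat = k - l := by omega
    rw [if_pos h, if_pos h1, h2]
    simp
  · have h1 : ¬ (0 : ℤ) ≤ (k : ℤ) - (l : ℤ) := by omega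
    have h2 : (-((k : ℤ) - (l : ℤ))).toNat = l - k := by omega
    rw [if_neg h, if_neg h1, h2]
    simp

theorem prim_wp (n : ℕ) :
    Primrec (fun p : Fin n × (ℕ × ℕ) => wp p.1 ((p.2.1 : ℤ) - (p.2.2 : ℤ))) := by
  have hk : Primrec (fun p : Fin n × (ℕ × ℕ) => p.2.1) := Primrec.fst.comp Primrec.snd
  have hl : Primrec (fun p : Fin n × (ℕ × ℕ) => p.2.2) := Primrec.snd.comp Primrec.snd
  have h : Primrec (fun p : Fin n × (ℕ × ℕ) =>
      if p.2.2 ≤ p.2.1 then (List.range (p.2.1 - p.2.2)).map (fun _ => (p.1, true))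
      else (List.range (p.2.2 - p.2.1)).map (fun _ => (p.1, false))) := by
    refine Primrec.ite (Primrec.nat_le.comp hl hk) ?_ ?_
    · exact Primrec.list_map (Primrec.list_range.comp (Primrec.nat_sub.comp hk hl))
        (Primrec₂.mk (Primrec.pair (Primrec.fst.comp Primrec.fst) (Primrec.const true)))
    · exact Primrec.list_map (Primrec.list_range.comp (Primrec.nat_sub.comp hl hk))
        (Primrec₂.mk (Primrec.pair (Primrec.fst.comp Primrec.fst) (Primrec.const false)))
  exact h.of_eq fun p => (wp_eq p.1 p.2.1 p.2.2).symm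

/-- number of letters with sign `b` -/
def cn {S : Type} (b : Bool) (u : W S) : ℕ := (u.filter (fun a => decide (a.2 = b))).length

theorem tot_eq {S : Type} (u : W S) : -(tot u) = (cn false u : ℤ) - (cn true u : ℤ) := by
  induction u with
  | nil => simp [tot, cn]
  | cons a u ih =>
    have h1 : tot (a :: u) = (if a.2 then (1 : ℤ) else -1) + tot u := by
      simp [tot]
    rw [h1, neg_add, ih]
    rcases a with ⟨s, b⟩
    cases b
    · simp [cn]
      ring
    · simp [cn]
      ring

theorem prim_cn (n : ℕ) (b : Bool) : Primrec (fun u : W (Fin n) => cn b u) := by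
  have h : PrimrecPred (fun a : Fin n × Bool => a.2 = b) :=
    Primrec.eq.comp Primrec.snd (Primrec.const b)
  exact Primrec.list_length.comp (Primrec.listFilter h)

theorem t_BASB : S_BASB := by
  intro n
  refine ⟨(prim_inv n).to_comp, (prim_wp n).to_comp, ?_⟩
  have h : Primrec (fun p : Fin n × W (Fin n) =>
      wp p.1 ((cn false p.2 : ℤ) - (cn true p.2 : ℤ))) :=
    (prim_wp n).comp (Primrec.pair Primrec.fst
      (Primrec.pair ((prim_cn n false).comp Primrec.snd) ((prim_cn n true).comp Primrec.snd)))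
  exact (h.of_eq fun p => by rw [tot_eq]).to_comp

end Pool.Agent.H338R.EB.BASB
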