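import Pool.Agent.H482R3.EB.Stm

/-! # EB, task CERTB: certificates of non triviality (helper338, adapted from helper296) -/

set_option autoImplicit false

namespace Pool.Agent.H338R.EB.CERTB

open Pool.Agent.H482R3.EB
open Pool.Agent.H482R3.EA (W inv ev PP xx evF cond1 cond2 cV cW LIdx Syl gOf iW iV letF valS
  Sys St Near InD Adm Act)

theorem CERT_vc {V Wt : Type} (c : V ⊕ Wt → V ⊕ Wt → ℕ)
    (l : List (Syl V Wt)) (s : Option (Syl V Wt)) (a a' : Syl V Wt) (h1 : VC c s (l ++ [a]))
    (h2 : AdmW c (some a) a') : VC c s (l ++ [a] ++ [a']) := by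
  induction l generalizing s with
  | nil => exact ⟨h1.1, h2, trivial⟩
  | cons b l ih => exact ⟨h1.1, ih (some b) h1.2⟩

section

variable {V Wt : Type} (c : V ⊕ Wt → V ⊕ Wt → ℕ)
  (h : SysOK c) (A : Act (sysB c h))

theorem CERT_append (u u' : W (V ⊕ Wt)) (x : A.Ω × AR (cW c)) :
    runB c h A (u ++ u') x = runB c h A u' (runB c h A u x) := by
  unfold runB
  rw [List.foldl_append]

theorem CERT_iW (g : W Wt) (ω : A.Ω) (g0 : AR (cW c)) :
    runB c h A (iW g) (ω, g0) = (ω, g0 * gEl c g) := by
  induction g generalizing g0 with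
  | nil => simp [runB, iW, gEl, ev]
  | cons a g ih =>
    have e1 : (iW (a :: g) : W (V ⊕ Wt)) = [(Sum.inr a.1, a.2)] ++ iW g := rfl
    rw [e1, CERT_append]
    have e2 : runB c h A [(Sum.inr a.1, a.2)] (ω, g0) =
        (ω, g0 * if a.2 then gR (cW c) a.1 else (gR (cW c) a.1)⁻¹) := rfl
    rw [e2, ih]
    have e3 : gEl c (a :: g) = (if a.2 then gR (cW c) a.1 else (gR (cW c) a.1)⁻¹) * gEl c g := by
      simp [gEl, ev]
    rw [e3, mul_assoc]

theorem CERT_stO (a : Syl V Wt) (ha : okS c a) : stO c h (some a) ≠ .none := by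
  rcases a with ⟨g, v, b, n⟩ | ⟨g, y⟩ | ⟨g, v, w, y⟩
  · simp [stO]
  · simp [stO]
  · have hc : c (.inl v) (.inr w) ≠ 0 := ha
    simp only [stO]
    rw [dif_pos hc]
    simp

end

theorem t_CERTB (hN : Pool.Agent.H482R3.EA.S_NFT) (hY : S_SYSB) (hA : S_ACTB) (hL : S_VALB)
    (h1 : S_SEM1B) (h2 : S_SEM2B) (hR : S_RUNB) (hV : Pool.Agent.H482R3.EA.S_EV) (hJ : S_SUR)
    (hT : S_RETJ) : S_CERTB := by
  intro V Wt nV c hC htV htW u
  have h : SysOK c := hY V Wt nV c hC htV htW
  obtain ⟨A⟩ := hN (sysB c h)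
  obtain ⟨v, hv1, hv⟩ := hL V Wt c hC h A
  obtain ⟨ev1, ev2, -⟩ := hV (V ⊕ Wt) (AJ c) inferInstance (gJ c)
  have act := hA V Wt c hC h A
  have star1 : ∀ u u' : W (V ⊕ Wt), runB c h A u (A.one, 1) = runB c h A u' (A.one, 1) →
      ev (gJ c) u = ev (gJ c) u' := by
    intro u u' e
    have e1 := hv u (A.one, 1)
    have e2 := hv u' (A.one, 1)
    rw [hv1, one_mul] at e1 e2
    rw [← e1, ← e2, e]
  have star2 : ∀ u u' : W (V ⊕ Wt), ev (gJ c) u = ev (gJ c) u' →
      runB c h A u (A.one, 1) = runB c h A u' (A.one, 1) := by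
    intro u u' e
    have t1 : TJ c (inv u' ++ u) := by
      unfold TJ
      rw [ev1, ev2, e]
      exact inv_mul_cancel _
    have t2 : TJ c (u' ++ inv u') := by
      unfold TJ
      rw [ev1, ev2]
      exact mul_inv_cancel _
    have e1 := act (inv u' ++ u) t1 (runB c h A u' (A.one, 1))
    have e2 := act (u' ++ inv u') t2 (A.one, 1)
    rw [CERT_append] at e1 e2
    rw [← CERT_append] at e2
    rw [CERT_append] at e2
    rw [e2] at e1
    exact e1
  constructor
  · intro hnt
    -- the normal form of `u`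
    have hgen : ∀ ω : A.Ω, ∃ (code : List (Syl V Wt)) (s : Option (Syl V Wt)),
        VC c none code ∧ (∀ a, AdmW c s a → VC c none (code ++ [a])) ∧
        runB c h A (code.flatMap (valS c)) (A.one, 1) = (ω, 1) ∧ A.st ω = stO c h s ∧
        okO c s := by
      refine A.gen _ ?_ ?_
      · exact ⟨[], none, trivial, fun a ha => ⟨ha, trivial⟩, rfl, A.st_one, trivial⟩
      · intro ω l y hω hadm
        obtain ⟨code, s, k1, k2, k3, k4, k5⟩ := hω
        rw [k4] at hadm
        obtain ⟨a, ha, hact⟩ := h2 V Wt c hC h s l y k5 hadm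
        obtain ⟨hok, hst⟩ := h1 V Wt c hC h A s a ω k5 ha k4
        have hrun := hR V Wt c hC h A a ω hok
        refine ⟨code ++ [a], some a, k2 a ha, ?_, ?_, ?_, hok⟩
        · intro a' ha'
          exact CERT_vc c code none a a' (k2 a ha) ha'
        · rw [List.flatMap_append, CERT_append, k3]
          have e1 : [a].flatMap (valS c) = valS c a := by simp
          rw [e1, hrun]
          have e2 := hact A ω
          rw [e2]
        · have e2 := hact A ω
          rw [e2]
          exact hst
    obtain ⟨code, s, k1, -, k3, -, -⟩ := hgen (runB c h A u (A.one, 1)).1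
    obtain ⟨g, hg⟩ := hJ Wt (cW c) (runB c h A u (A.one, 1)).2
    have hrun : runB c h A (code.flatMap (valS c) ++ iW g) (A.one, 1) = runB c h A u (A.one, 1) := by
      rw [CERT_append, k3, CERT_iW, one_mul]
      have e1 : gEl c g = (runB c h A u (A.one, 1)).2 := hg
      rw [e1]
    have hev := star1 _ _ hrun
    refine ⟨code, g, k1, ?_, ?_⟩
    · unfold TJ
      rw [List.append_assoc, ev1, ev2, hev]
      exact inv_mul_cancel _
    · by_contra hcon
      rw [not_or, not_not, not_not] at hcon
      obtain ⟨c1, c2⟩ := hcon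
      have c3 : TJ c (iW g) := (hT V Wt c).1 g |>.1 c2
      apply hnt
      unfold TJ
      rw [← hev, c1]
      exact c3
  · rintro ⟨code, g, k1, k2, k3⟩ htriv
    have key : ∀ (code : List (Syl V Wt)) (s : Option (Syl V Wt)) (ω : A.Ω), VC c s code →
        okO c s → A.st ω = stO c h s → ∃ (ω' : A.Ω) (s' : Option (Syl V Wt)),
        runB c h A (code.flatMap (valS c)) (ω, 1) = (ω', 1) ∧ A.st ω' = stO c h s' ∧
        okO c s' ∧ (s' = none → code = [] ∧ s = none) := by
      intro code
      induction code with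
      | nil =>
        intro s ω _ ho hs
        exact ⟨ω, s, rfl, hs, ho, fun e => ⟨rfl, e⟩⟩
      | cons a l ih =>
        intro s ω hvc ho hs
        obtain ⟨hok, hst⟩ := h1 V Wt c hC h A s a ω ho hvc.1 hs
        have hrun := hR V Wt c hC h A a ω hok
        obtain ⟨ω', s', m1, m2, m3, m4⟩ := ih (some a) _ hvc.2 hok hst
        refine ⟨ω', s', ?_, m2, m3, ?_⟩
        · rw [List.flatMap_cons, CERT_append, hrun]
          exact m1
        · intro e
          have := (m4 e).2
          simp at this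
    obtain ⟨ω', s', m1, m2, m3, m4⟩ := key code none A.one k1 trivial A.st_one
    have e1 : ev (gJ c) (code.flatMap (valS c) ++ iW g) = ev (gJ c) [] := by
      have k2' : ev (gJ c) (inv u ++ code.flatMap (valS c) ++ iW g) = 1 := k2
      rw [List.append_assoc, ev1, ev2] at k2'
      have t' : ev (gJ c) u = 1 := htriv
      rw [t', inv_one, one_mul] at k2'
      rw [k2']
      simp [ev]
    have e2 := star2 _ _ e1
    rw [CERT_append, m1, CERT_iW, one_mul] at e2
    have e3 : runB c h A [] (A.one, 1) = (A.one, 1) := rfl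
    rw [e3] at e2
    have e4 : ω' = A.one := congrArg Prod.fst e2
    have e5 : gEl c g = 1 := congrArg Prod.snd e2
    have e6 : s' = none := by
      cases s' with
      | none => rfl
      | some a =>
        exfalso
        apply CERT_stO c h a m3
        rw [← m2, e4]
        exact A.st_one
    have e7 := (m4 e6).1
    rcases k3 with k3 | k3
    · exact k3 e7
    · exact k3 e5

end Pool.Agent.H338R.EB.CERTB
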