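import Pool.Agent.H482R3.EB.Stm

/-! # EB, task REB: the word problem of `AJ` is r.e. (helper338) -/

set_option autoImplicit false

namespace Pool.Agent.H338R.EB.REB

open Pool.Agent.H482R3.EB
open Pool.Agent.H482R3.EA (W inv ev PP xx evF cond1 cond2 cV cW LIdx Syl gOf iW iV letF valS
  Sys St Near InD Adm Act)

theorem fin_rels (a b : ℕ) (c : Fin a ⊕ Fin b → Fin a ⊕ Fin b → ℕ) : (relsJ c).Finite := by
  have h : relsJ c ⊆
      (Set.range fun p : Fin a × Fin a =>
        ((alt p.1 p.2 (cV c p.1 p.2)).map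
          (fun x => FreeGroup.of (Sum.inl x : Fin a ⊕ Fin b))).prod *
        (((alt p.2 p.1 (cV c p.1 p.2)).map
          (fun x => FreeGroup.of (Sum.inl x : Fin a ⊕ Fin b))).prod)⁻¹) ∪
      ((Set.range fun p : Fin b × Fin b =>
        ((alt p.1 p.2 (cW c p.1 p.2)).map
          (fun x => FreeGroup.of (Sum.inr x : Fin a ⊕ Fin b))).prod *
        (((alt p.2 p.1 (cW c p.1 p.2)).map
          (fun x => FreeGroup.of (Sum.inr x : Fin a ⊕ Fin b))).prod)⁻¹) ∪
      (Set.range fun p : Fin a × Fin b =>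
        (FreeGroup.of (Sum.inl p.1 : Fin a ⊕ Fin b) * FreeGroup.of (.inr p.2)) ^
          (c (.inl p.1) (.inr p.2)) *
        ((FreeGroup.of (Sum.inr p.2 : Fin a ⊕ Fin b) * FreeGroup.of (.inl p.1)) ^
          (c (.inl p.1) (.inr p.2)))⁻¹)) := by
    rintro r (⟨s, t, _, _, rfl⟩ | ⟨s, t, _, _, rfl⟩ | ⟨v, w, _, rfl⟩)
    · exact Or.inl ⟨(s, t), rfl⟩
    · exact Or.inr (Or.inl ⟨(s, t), rfl⟩)
    · exact Or.inr (Or.inr ⟨(v, w), rfl⟩)
  exact ((Set.finite_range _).union ((Set.finite_range _).union (Set.finite_range _))).subset h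

theorem t_REB (hF : S_FPRE) : S_REB := by
  intro a b c
  have hfin := fin_rels a b c
  obtain ⟨R, hR⟩ : ∃ R : List (W (Fin a ⊕ Fin b)),
      relsJ c = {r | ∃ z ∈ R, r = FreeGroup.mk z} := by
    refine ⟨hfin.toFinset.toList.map FreeGroup.toWord, ?_⟩
    ext r
    constructor
    · intro hr
      refine ⟨r.toWord, ?_, FreeGroup.mk_toWord.symm⟩
      rw [List.mem_map]
      exact ⟨r, by rw [Finset.mem_toList, Set.Finite.mem_toFinset]; exact hr, rfl⟩
    · rintro ⟨z, hz, rfl⟩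
      rw [List.mem_map] at hz
      obtain ⟨r, hr, rfl⟩ := hz
      rw [Finset.mem_toList, Set.Finite.mem_toFinset] at hr
      rw [FreeGroup.mk_toWord]
      exact hr
  have h1 := hF (Fin a ⊕ Fin b) inferInstance inferInstance R
  have h2 : ∀ rels : Set (FreeGroup (Fin a ⊕ Fin b)), rels = relsJ c →
      (fun u : W (Fin a ⊕ Fin b) =>
        ev (PresentedGroup.of : Fin a ⊕ Fin b → PresentedGroup rels) u = 1) = TJ c := by
    rintro _ rfl
    rfl
  rw [← h2 _ hR.symm]
  exact h1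

end Pool.Agent.H338R.EB.REB
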