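import Pool.Agent.H482R3.EB.Stm

/-!
# EB, task SEM1B: an admissible syllable gives the right state (helper338, after helper616)
-/

set_option autoImplicit false
set_option linter.unusedSectionVars false

namespace Pool.Agent.H338R.EB.SEM1B

open Pool.Agent.H482R3.EB
open Pool.Agent.H482R3.EA (W inv ev PP xx evF cond1 cond2 cV cW LIdx Syl gOf iW iV letF valS
  Sys St Near InD Adm Act)

lemma map_ev {S G H : Type} [Group G] [Group H] (φ : G →* H) (f : S → G) (u : W S) :
    φ (ev f u) = ev (fun s => φ (f s)) u := by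
  unfold ev
  rw [map_list_prod, List.map_map]
  congr 1
  apply List.map_congr_left
  intro a _
  simp only [Function.comp]
  split_ifs
  · rfl
  · exact map_inv φ _

section

variable {V Wt : Type} (c : V ⊕ Wt → V ⊕ Wt → ℕ)

theorem triv1 (hV : Pool.Agent.H482R3.EA.S_EV) (hW : S_WPW) (y : W V) (v : V) (a : ℤ)
    (h : ev (gR (cV c)) y = gR (cV c) v ^ a) : TR (cV c) (y ++ wp v (-a)) := by
  unfold TR
  have hev := hV V (AR (cV c)) inferInstance (gR (cV c))
  rw [hev.1, (hW V (AR (cV c)) inferInstance (gR (cV c)) v (-a)).1, h, zpow_neg,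
    mul_inv_cancel]

theorem triv2 (hV : Pool.Agent.H482R3.EA.S_EV) (hW : S_WPW) (y : W V) (v v' : V) (a b : ℤ)
    (h : ev (gR (cV c)) y = gR (cV c) v ^ a * gR (cV c) v' ^ b) :
    TR (cV c) (wp v (-a) ++ y ++ wp v' (-b)) := by
  unfold TR
  have hev := hV V (AR (cV c)) inferInstance (gR (cV c))
  rw [hev.1, hev.1, (hW V (AR (cV c)) inferInstance (gR (cV c)) v (-a)).1,
    (hW V (AR (cV c)) inferInstance (gR (cV c)) v' (-b)).1, h, zpow_neg, zpow_neg]
  group

theorem gEl_wp (hV : Pool.Agent.H482R3.EA.S_EV) (hW : S_WPW) (g : W Wt) (w : Wt) (j : ℤ) :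
    gEl c (g ++ wp w j) = gEl c g * gR (cW c) w ^ j := by
  unfold gEl
  have hev := hV Wt (AR (cW c)) inferInstance (gR (cW c))
  rw [hev.1, (hW Wt (AR (cW c)) inferInstance (gR (cW c)) w j).1]

end

theorem t_SEM1B (hD : S_DICB) (hS : Pool.Agent.H482R3.EA.S_XS)
    (hV : Pool.Agent.H482R3.EA.S_EV) (hT : S_TOT) (hW : S_WPW) : S_SEM1B := by
  intro V Wt c _ h A s a ω hs hA hω
  rcases a with ⟨g, v, b, n⟩ | ⟨g, y⟩ | ⟨g, v, w, y⟩
  · -- point syllables
    refine ⟨trivial, ?_⟩
    obtain ⟨hn, hN⟩ := hA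
    rw [(hD V Wt c h s g v hs).1] at hN
    rw [← hω] at hN
    have key := A.st_pt ω (Sum.inl (gEl c g) : LnB c) ((gEl c g, v) : PB c)
      (if b then (n : ℤ) else -(n : ℤ)) (by change (gEl c g) = gEl c g; rfl)
      (by split_ifs <;> omega) hN
    have e : (lyO c (.inl (g, v, b, n) : Syl V Wt)) = ⟨(Sum.inl (gEl c g) : LnB c),
        ((gR (cV c) v) ^ (if b then (n : ℤ) else -(n : ℤ)) : AR (cV c))⟩ := by
      unfold lyO
      cases b
      · simp
      · simp
    rw [e]
    exact key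
  · -- block syllables
    refine ⟨trivial, ?_⟩
    obtain ⟨hI, hc⟩ := hA
    rcases hc with ⟨hc1, hc2⟩ | ⟨v, hc1, hc2⟩
    · obtain ⟨⟨g0, v0⟩, hp0⟩ := h.Λ0 (Sum.inl (gEl c g) : LnB c)
      rw [(hD V Wt c h s g v0 hs).2.1] at hI
      rw [← hω] at hI
      have key := A.st_ln ω (Sum.inl (gEl c g) : LnB c) (ev (gR (cV c)) y : AR (cV c)) hI
      refine key ?_ ?_
      · rintro ⟨g', v'⟩ hq hN
        change g' = gEl c g at hq
        subst hq
        apply hc1 v'
        rw [(hD V Wt c h s g v' hs).1, ← hω]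
        exact hN
      · rintro ⟨g', v'⟩ a hr hy
        change ev (gR (cV c)) y = gR (cV c) v' ^ a at hy
        exact hc2 v' _ (triv1 c hV hW y v' a hy)
    · rw [(hD V Wt c h s g v hs).2.1] at hI
      rw [(hD V Wt c h s g v hs).1] at hc1
      rw [← hω] at hI hc1
      have key := A.st_ln' ω (Sum.inl (gEl c g) : LnB c) (ev (gR (cV c)) y : AR (cV c))
        ((gEl c g, v) : PB c) hI (by change (gEl c g) = gEl c g; rfl) hc1
      refine key ?_
      rintro ⟨g', v'⟩ a b hr hy
      change g' = gEl c g at hr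
      change ev (gR (cV c)) y = gR (cV c) v ^ a * gR (cV c) v' ^ b at hy
      exact hc2 v' _ _ (triv2 c hV hW y v v' a b hy)
  · obtain ⟨hk, hI, hc⟩ := hA
    refine ⟨hk, ?_⟩
    have hk2 : 0 < c (.inl v) (.inr w) := Nat.pos_of_ne_zero hk
    -- the line
    set l : LnB c := Sum.inr ⟨(⟨(v, w), hk⟩ : LIdx c), QuotientGroup.mk (gEl c g)⟩ with hl
    set d : ℤ := totg (cW c) (((QuotientGroup.mk (gEl c g) :
              AR (cW c) ⧸ Subgroup.zpowers (gR (cW c) w)).out)⁻¹ * gEl c g) with hd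
    have e : lyO c (.inr (.inr (g, v, w, y)) : Syl V Wt) = ⟨l,
          (ev (fun r : ℕ => xx (c (.inl v) (.inr w)) (((r % c (.inl v) (.inr w) : ℕ) : ℤ) + d)) y :
            FreeGroup (Fin (c (.inl v) (.inr w))))⟩ := by
      unfold lyO
      exact dif_pos hk
    have e2 : stO c h (some (.inr (.inr (g, v, w, y)) : Syl V Wt)) = .ln l := by
      unfold stO
      exact dif_pos hk
    rw [e, e2]
    obtain ⟨σ, hσ⟩ := hS (c (.inl v) (.inr w)) d hk2
    have hy : (ev (fun r : ℕ => xx (c (.inl v) (.inr w))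
        (((r % c (.inl v) (.inr w) : ℕ) : ℤ) + d)) y :
            FreeGroup (Fin (c (.inl v) (.inr w)))) = σ (evF (c (.inl v) (.inr w)) y) := by
      unfold evF
      rw [show σ (ev (fun r : ℕ => xx (c (.inl v) (.inr w)) ((r % c (.inl v) (.inr w) : ℕ) : ℤ)) y)
        = σ.toMonoidHom (ev (fun r : ℕ => xx (c (.inl v) (.inr w))
          ((r % c (.inl v) (.inr w) : ℕ) : ℤ)) y) from rfl, map_ev]
      congr 1
      funext r
      exact (hσ _).symm
    rw [hy]
    -- points of the line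
    have hpt : ∀ i : ℤ, xB c l ((gEl c g * gR (cW c) w ^ i, v) : PB c) =
        xx (c (.inl v) (.inr w)) (d + i) := by
      intro i
      change xx (c (.inl v) (.inr w)) (totg (cW c) (((QuotientGroup.mk (gEl c g) :
              AR (cW c) ⧸ Subgroup.zpowers (gR (cW c) w)).out)⁻¹ *
              (gEl c g * gR (cW c) w ^ i))) = _
      rw [← mul_assoc, (hT Wt (cW c)).2.1, (hT Wt (cW c)).2.2.2.1 w i]
    have hpt2 : ∀ r : PB c, IB c r l → ∃ i : ℤ, xB c l r = xx (c (.inl v) (.inr w)) (i + d) := by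
      rintro ⟨g', v'⟩ ⟨hv', hg'⟩
      change v' = v at hv'
      subst hv'
      change (QuotientGroup.mk g' : AR (cW c) ⧸ Subgroup.zpowers (gR (cW c) w)) =
        QuotientGroup.mk (gEl c g) at hg'
      rw [eq_comm, QuotientGroup.eq] at hg'
      obtain ⟨i, hi⟩ := hg'
      have hi' : g' = gEl c g * gR (cW c) w ^ i := by
        have : gR (cW c) w ^ i = (gEl c g)⁻¹ * g' := hi
        rw [this]
        group
      refine ⟨i, ?_⟩
      rw [hi', hpt i, add_comm]
    have hone : ∀ i a : ℤ, σ (evF (c (.inl v) (.inr w)) y) =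
        (xx (c (.inl v) (.inr w)) (i + d)) ^ a →
        evF (c (.inl v) (.inr w)) y = (xx (c (.inl v) (.inr w)) i) ^ a := by
      intro i a h3
      rw [← hσ, ← map_zpow] at h3
      exact σ.injective h3
    have htwo : ∀ j i a b : ℤ, σ (evF (c (.inl v) (.inr w)) y) =
        (xx (c (.inl v) (.inr w)) (j + d)) ^ a * (xx (c (.inl v) (.inr w)) (i + d)) ^ b →
        evF (c (.inl v) (.inr w)) y =
          (xx (c (.inl v) (.inr w)) j) ^ a * (xx (c (.inl v) (.inr w)) i) ^ b := by
      intro j i a b h3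
      rw [← hσ, ← hσ, ← map_zpow, ← map_zpow, ← map_mul] at h3
      exact σ.injective h3
    rw [(hD V Wt c h s g v hs).2.2 w hk, ← hω] at hI
    rcases hc with ⟨hc1, hc2⟩ | ⟨j, hc1, hc2⟩
    · have key := A.st_ln ω l (σ (evF (c (.inl v) (.inr w)) y)) hI
      refine key ?_ ?_
      · rintro ⟨g', v'⟩ hq hN
        obtain ⟨hv', hg'⟩ := hq
        change v' = v at hv'
        subst hv'
        change (QuotientGroup.mk g' : AR (cW c) ⧸ Subgroup.zpowers (gR (cW c) w)) =
          QuotientGroup.mk (gEl c g) at hg'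
        rw [eq_comm, QuotientGroup.eq] at hg'
        obtain ⟨i, hi⟩ := hg'
        have hi' : g' = gEl c g * gR (cW c) w ^ i := by
          have : gR (cW c) w ^ i = (gEl c g)⁻¹ * g' := hi
          rw [this]
          group
        apply hc1 i
        rw [(hD V Wt c h s _ v' hs).1, ← hω, gEl_wp c hV hW, ← hi']
        exact hN
      · intro r a hr hyy
        obtain ⟨i, hi⟩ := hpt2 r hr
        change σ (evF (c (.inl v) (.inr w)) y) = xB c l r ^ a at hyy
        have h3 : σ (evF (c (.inl v) (.inr w)) y) = (xx (c (.inl v) (.inr w)) (i + d)) ^ a :=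
          hyy.trans (congrArg (fun z : LB c l => z ^ a) hi)
        exact hc2 i a (hone i a h3)
    · rw [(hD V Wt c h s _ v hs).1, ← hω, gEl_wp c hV hW] at hc1
      have key := A.st_ln' ω l (σ (evF (c (.inl v) (.inr w)) y))
        ((gEl c g * gR (cW c) w ^ j, v) : PB c) hI ⟨rfl, by
          change (QuotientGroup.mk _ : AR (cW c) ⧸ Subgroup.zpowers (gR (cW c) w)) =
            QuotientGroup.mk (gEl c g)
          rw [eq_comm, QuotientGroup.eq, inv_mul_cancel_left]
          exact ⟨_, rfl⟩⟩ hc1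
      refine key ?_
      intro r a b hr hyy
      obtain ⟨i, hi⟩ := hpt2 r hr
      have h4 := hpt j
      have h3 : σ (evF (c (.inl v) (.inr w)) y) =
          (xx (c (.inl v) (.inr w)) (d + j)) ^ a *
            (xx (c (.inl v) (.inr w)) (i + d)) ^ b :=
        hyy.trans (congrArg₂ (fun z z' : LB c l => z ^ a * z' ^ b) h4 hi)
      rw [add_comm d] at h3
      exact hc2 i a b (htwo _ i a b h3)

end Pool.Agent.H338R.EB.SEM1B
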