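import Pool.Agent.H482R3.EB.Stm

/-!
# EB, task SEM2B: admissible prolongations are syllables (helper338, after helper966)
-/

set_option autoImplicit false
set_option linter.unusedSectionVars false

namespace Pool.Agent.H338R.EB.SEM2B

open Pool.Agent.H482R3.EB
open Pool.Agent.H482R3.EA (W inv ev PP xx evF cond1 cond2 cV cW LIdx Syl gOf iW iV letF valS
  Sys St Near InD Adm Act)

/-- every element of the free group is the value of a word over `ℕ` -/
theorem wordF (hX : Pool.Agent.H482R3.EA.S_XX) (hV : Pool.Agent.H482R3.EA.S_EV) (k : ℕ)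
    (hk : 0 < k) (y : FreeGroup (Fin k)) : ∃ y0 : W ℕ, evF k y0 = y := by
  have hev := hV ℕ (FreeGroup (Fin k)) inferInstance (fun r => xx k ((r % k : ℕ) : ℤ))
  have hof : ∀ x : Fin k, ∃ y0 : W ℕ, evF k y0 = FreeGroup.of x := by
    intro x
    refine ⟨[(x.val, true)], ?_⟩
    have h1 : evF k [(x.val, true)] = xx k ((x.val % k : ℕ) : ℤ) := by
      simp [evF, ev]
    rw [h1, Nat.mod_eq_of_lt x.2]
    exact (hX k hk).2.2 x
  refine FreeGroup.induction_on y ⟨[], rfl⟩ hof ?_ ?_
  · intro x hx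
    obtain ⟨u, hu⟩ := hof x
    refine ⟨inv u, ?_⟩
    have h1 : evF k (inv u) = (evF k u)⁻¹ := hev.2.1 u
    rw [h1, hu]
    try rfl
  · rintro x y ⟨u, hu⟩ ⟨u', hu'⟩
    refine ⟨u ++ u', ?_⟩
    have h1 : evF k (u ++ u') = evF k u * evF k u' := hev.1 u u'
    rw [h1, hu, hu']

section

variable {V Wt : Type} (c : V ⊕ Wt → V ⊕ Wt → ℕ)

theorem triv1 (hV : Pool.Agent.H482R3.EA.S_EV) (hW : S_WPW) (y : W V) (v : V) (a : ℤ)
    (h : TR (cV c) (y ++ wp v a)) : ev (gR (cV c)) y = gR (cV c) v ^ (-a) := by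
  unfold TR at h
  have hev := hV V (AR (cV c)) inferInstance (gR (cV c))
  rw [hev.1, (hW V (AR (cV c)) inferInstance (gR (cV c)) v a).1] at h
  rw [zpow_neg]
  exact eq_inv_of_mul_eq_one_left h

theorem triv2 (hV : Pool.Agent.H482R3.EA.S_EV) (hW : S_WPW) (y : W V) (v v' : V) (a b : ℤ)
    (h : TR (cV c) (wp v a ++ y ++ wp v' b)) :
    ev (gR (cV c)) y = gR (cV c) v ^ (-a) * gR (cV c) v' ^ (-b) := by
  unfold TR at h
  have hev := hV V (AR (cV c)) inferInstance (gR (cV c))
  rw [hev.1, hev.1, (hW V (AR (cV c)) inferInstance (gR (cV c)) v a).1,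
    (hW V (AR (cV c)) inferInstance (gR (cV c)) v' b).1] at h
  have h1 := eq_inv_of_mul_eq_one_left h
  rw [zpow_neg, zpow_neg, ← h1, inv_mul_cancel_left]

theorem gEl_wp (hV : Pool.Agent.H482R3.EA.S_EV) (hW : S_WPW) (g : W Wt) (w : Wt) (j : ℤ) :
    gEl c (g ++ wp w j) = gEl c g * gR (cW c) w ^ j := by
  unfold gEl
  have hev := hV Wt (AR (cW c)) inferInstance (gR (cW c))
  rw [hev.1, (hW Wt (AR (cW c)) inferInstance (gR (cW c)) w j).1]

theorem xinr (hT : S_TOT) (v : V) (w : Wt) (hc : c (.inl v) (.inr w) ≠ 0)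
    (C : AR (cW c) ⧸ Subgroup.zpowers (gR (cW c) w)) (g : W Wt)
    (hg : gEl c g = C.out) (n : ℤ) :
    xB c (Sum.inr ⟨(⟨(v, w), hc⟩ : LIdx c), C⟩) (gEl c g * gR (cW c) w ^ n, v) =
      xx (c (.inl v) (.inr w)) n := by
  show xx (c (.inl v) (.inr w))
    (totg (cW c) ((C.out : AR (cW c))⁻¹ * (gEl c g * gR (cW c) w ^ n))) = _
  rw [hg, inv_mul_cancel_left, (hT Wt (cW c)).2.2.2.1 w n]

theorem iinr (v : V) (w : Wt) (hc : c (.inl v) (.inr w) ≠ 0)
    (C : AR (cW c) ⧸ Subgroup.zpowers (gR (cW c) w)) (g : W Wt)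
    (hC : (QuotientGroup.mk (gEl c g) : AR (cW c) ⧸ Subgroup.zpowers (gR (cW c) w)) = C)
    (n : ℤ) :
    IB c (gEl c g * gR (cW c) w ^ n, v) (Sum.inr ⟨(⟨(v, w), hc⟩ : LIdx c), C⟩) := by
  refine ⟨rfl, ?_⟩
  show (QuotientGroup.mk (gEl c g * gR (cW c) w ^ n) :
    AR (cW c) ⧸ Subgroup.zpowers (gR (cW c) w)) = C
  rw [QuotientGroup.mk_mul_of_mem _ (Subgroup.zpow_mem_zpowers _ _)]
  exact hC

end

theorem t_SEM2B (hD : S_DICB) (_hS : Pool.Agent.H482R3.EA.S_XS)
    (hX : Pool.Agent.H482R3.EA.S_XX) (hV : Pool.Agent.H482R3.EA.S_EV) (hT : S_TOT)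
    (hW : S_WPW) (hJ : S_SUR) : S_SEM2B := by
  intro V Wt c _ h s l y hs hadm
  have hadm' : (∃ (p : PB c) (n : ℤ), IB c p l ∧ n ≠ 0 ∧
        ¬ Near (sysB c h) p (stO c h s) ∧ y = xB c l p ^ n) ∨
      (¬ InD (sysB c h) l (stO c h s) ∧
        (∀ q : PB c, IB c q l → ¬ Near (sysB c h) q (stO c h s)) ∧
        ∀ (r : PB c) (a : ℤ), IB c r l → y ≠ xB c l r ^ a) ∨
      (¬ InD (sysB c h) l (stO c h s) ∧ ∃ q : PB c, IB c q l ∧
        Near (sysB c h) q (stO c h s) ∧
        ∀ (r : PB c) (a b : ℤ), IB c r l → y ≠ xB c l q ^ a * xB c l r ^ b) := hadm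
  rcases hadm' with ⟨p, n, hp, hn, hnear, hy⟩ | hrest
  · -- a point
    obtain ⟨g0, v⟩ := p
    obtain ⟨g, hg⟩ := hJ Wt (cW c) g0
    have hg' : gEl c g = g0 := hg
    subst hg'
    refine ⟨.inl (g, v, decide (0 < n), n.natAbs), ⟨by omega, ?_⟩, ?_⟩
    · rw [(hD V Wt c h s g v hs).1]
      exact hnear
    · intro A ω
      have h1 : A.act ω l (xB c l (gEl c g, v) ^ n) =
          A.act ω (Sum.inl (gEl c g) : LnB c) (gR (cV c) v ^ n : AR (cV c)) :=
        A.act_pt ω l (Sum.inl (gEl c g) : LnB c) ((gEl c g, v) : PB c) n hp rfl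
      rw [hy]
      refine h1.trans ?_
      have h2 : ((if decide (0 < n) = true then gR (cV c) v else (gR (cV c) v)⁻¹) ^ n.natAbs :
          AR (cV c)) = gR (cV c) v ^ n := by
        by_cases h0 : 0 < n
        · simp only [h0, decide_true, if_true]
          rw [← zpow_natCast, Int.natAbs_of_nonneg h0.le]
        · simp only [h0, decide_false]
          rw [if_neg (by simp), ← zpow_natCast, inv_zpow', Int.ofNat_natAbs_of_nonpos (by omega),
            neg_neg]
      show A.act ω (Sum.inl (gEl c g) : LnB c) (gR (cV c) v ^ n : AR (cV c)) =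
        A.act ω (Sum.inl (gEl c g) : LnB c)
          ((if decide (0 < n) = true then gR (cV c) v else (gR (cV c) v)⁻¹) ^ n.natAbs :
            AR (cV c))
      rw [h2]
  · rcases l with g0 | ⟨⟨⟨v, w⟩, hc⟩, C⟩
    · -- the line `B_g`
      obtain ⟨g, hg⟩ := hJ Wt (cW c) g0
      have hg' : gEl c g = g0 := hg
      subst hg'
      obtain ⟨y0, hy0⟩ := hJ V (cV c) y
      refine ⟨.inr (.inl (g, y0)), ?_, ?_⟩
      · rcases hrest with ⟨hin, hnn, hne⟩ | ⟨hin, q, hql, hqn, hne⟩
        · obtain ⟨p, hp⟩ := h.Λ0 (Sum.inl (gEl c g))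
          refine ⟨?_, Or.inl ⟨fun v => ?_, fun v a => ?_⟩⟩
          · rw [(hD V Wt c h s g p.2 hs).2.1]
            exact hin
          · rw [(hD V Wt c h s g v hs).1]
            exact hnn (gEl c g, v) rfl
          · intro ht
            have h3 := triv1 c hV hW y0 v a ht
            rw [hy0] at h3
            exact hne (gEl c g, v) (-a) rfl h3
        · obtain ⟨q1, v⟩ := q
          have hq1 : q1 = gEl c g := hql
          subst hq1
          refine ⟨?_, Or.inr ⟨v, ?_, fun v' a b => ?_⟩⟩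
          · rw [(hD V Wt c h s g v hs).2.1]
            exact hin
          · rw [(hD V Wt c h s g v hs).1]
            exact hqn
          · intro ht
            have h3 := triv2 c hV hW y0 v v' a b ht
            rw [hy0] at h3
            exact hne (gEl c g, v') (-a) (-b) rfl h3
      · intro A ω
        show A.act ω (Sum.inl (gEl c g) : LnB c) y =
          A.act ω (Sum.inl (gEl c g) : LnB c) (ev (gR (cV c)) y0 : AR (cV c))
        rw [hy0]
    · -- the line `(v, w, C)`
      have hk : 0 < c (.inl v) (.inr w) := Nat.pos_of_ne_zero hc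
      obtain ⟨g, hg⟩ := hJ Wt (cW c) (C.out : AR (cW c))
      have hg' : gEl c g = C.out := hg
      have hC : (QuotientGroup.mk (gEl c g) :
          AR (cW c) ⧸ Subgroup.zpowers (gR (cW c) w)) = C := by
        rw [hg']
        exact Quotient.out_eq' C
      obtain ⟨y0, hy0⟩ := wordF hX hV _ hk y
      have hpt : ∀ n : ℤ, IB c (gEl c g * gR (cW c) w ^ n, v)
          (Sum.inr ⟨(⟨(v, w), hc⟩ : LIdx c), C⟩) := iinr c v w hc C g hC
      have hx : ∀ n : ℤ, xB c (Sum.inr ⟨(⟨(v, w), hc⟩ : LIdx c), C⟩)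
          (gEl c g * gR (cW c) w ^ n, v) = xx (c (.inl v) (.inr w)) n :=
        xinr c hT v w hc C g hg'
      have hInDL : ¬ InD (sysB c h) (Sum.inr ⟨(⟨(v, w), hc⟩ : LIdx c), C⟩ : LnB c)
          (stO c h s) := by
        rcases hrest with ⟨hin, _⟩ | ⟨hin, _⟩
        · exact hin
        · exact hin
      have hnl : ¬ InDL c g v w s := by
        rw [(hD V Wt c h s g v hs).2.2 w hc, hC]
        exact hInDL
      have hnear : ∀ j : ℤ, NearW c (g ++ wp w j) v s ↔
          Near (sysB c h) ((gEl c g * gR (cW c) w ^ j, v) : PB c) (stO c h s) := by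
        intro j
        rw [(hD V Wt c h s (g ++ wp w j) v hs).1, gEl_wp c hV hW]
      refine ⟨.inr (.inr (g, v, w, y0)), ⟨hc, hnl, ?_⟩, ?_⟩
      · rcases hrest with ⟨hin, hnn, hne⟩ | ⟨hin, q, hql, hqn, hne⟩
        · refine Or.inl ⟨?_, ?_⟩
          · intro j
            rw [hnear]
            exact hnn _ (hpt j)
          · intro s' a
            rw [hy0, ← hx s']
            exact hne _ a (hpt s')
        · obtain ⟨q1, v1⟩ := q
          obtain ⟨hv1, hq1⟩ := hql
          have hv1' : v1 = v := hv1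
          subst hv1'
          have hq1' : (QuotientGroup.mk q1 : AR (cW c) ⧸ Subgroup.zpowers (gR (cW c) w)) =
              QuotientGroup.mk (gEl c g) := hq1.trans hC.symm
          rw [eq_comm, QuotientGroup.eq, Subgroup.mem_zpowers_iff] at hq1'
          obtain ⟨j, hj⟩ := hq1'
          have hqj : q1 = gEl c g * gR (cW c) w ^ j := by
            rw [hj, mul_inv_cancel_left]
          subst hqj
          refine Or.inr ⟨j, (hnear j).2 hqn, ?_⟩
          intro s' a b
          rw [hy0, ← hx s', ← hx j]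
          exact hne _ a b (hpt s')
      · intro A ω
        have hly : lyO c (.inr (.inr (g, v, w, y0)) : Syl V Wt) =
            (⟨Sum.inr ⟨(⟨(v, w), hc⟩ : LIdx c), C⟩, y⟩ : Σ l : LnB c, LB c l) := by
          subst hC
          unfold lyO
          simp only
          rw [dif_pos hc]
          have e0 : totg (cW c) (((QuotientGroup.mk (gEl c g) :
              AR (cW c) ⧸ Subgroup.zpowers (gR (cW c) w)).out)⁻¹ * gEl c g) = 0 := by
            have h1 := (hT Wt (cW c)).2.2.2.1 w 0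
            rw [← hg', inv_mul_cancel]
            rw [zpow_zero] at h1
            exact h1
          refine Sigma.ext rfl (heq_of_eq ?_)
          show ev (fun r : ℕ => xx (c (.inl v) (.inr w)) (((r % c (.inl v) (.inr w) : ℕ) : ℤ) +
            totg (cW c) (((QuotientGroup.mk (gEl c g) :
              AR (cW c) ⧸ Subgroup.zpowers (gR (cW c) w)).out)⁻¹ * gEl c g))) y0 = y
          rw [e0]
          simp only [add_zero]
          exact hy0
        rw [hly]

end Pool.Agent.H338R.EB.SEM2B
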